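import Mathlib
import Pool.Agent.Lib.MP_85963d_gt.Interfaces

/-!
# Module BEFN: smooth e-functions of mode 4 with given values
-/

set_option autoImplicit false

open MeasureTheory Set Filter Topology Quaternion
open scoped Real ContDiff

namespace Pool.Agent.MP85963d.H45

/-- real part of the fourth power -/
def P4 (a b : ℝ) : ℝ := a ^ 4 - 6 * a ^ 2 * b ^ 2 + b ^ 4

/-- cut-off function of the squared radius -/
noncomputable def kap (β : ℝ → ℝ) (r : ℝ) : ℝ := β (Real.sqrt (r / (1 - r))) / r ^ 2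

theorem kap_smooth {β : ℝ → ℝ} (hs : ContDiff ℝ ∞ β) (hc : HasCompactSupport β)
    (h0 : tsupport β ⊆ Ioi 0) : ContDiff ℝ ∞ (kap β) := by
  have hn0 : (0:ℝ) ∉ tsupport β := fun h => lt_irrefl (0:ℝ) (mem_Ioi.1 (h0 h))
  -- near zero
  obtain ⟨ε, hε, hβ0⟩ : ∃ ε > 0, ∀ t : ℝ, |t| < ε → β t = 0 := by
    have h1 := notMem_tsupport_iff_eventuallyEq.1 hn0
    rw [Filter.EventuallyEq, Metric.eventually_nhds_iff] at h1
    obtain ⟨ε, hε, h⟩ := h1
    exact ⟨ε, hε, fun t ht => h (by simpa [Real.dist_eq] using ht)⟩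
  -- near infinity
  obtain ⟨M, hM0, hβM⟩ : ∃ M > 0, ∀ t : ℝ, M < |t| → β t = 0 := by
    obtain ⟨M, hM⟩ := hc.isCompact.isBounded.exists_norm_le
    refine ⟨max M 1, by positivity, fun t ht => ?_⟩
    by_contra hne
    have h2 := hM t (subset_tsupport β hne)
    rw [Real.norm_eq_abs] at h2
    exact absurd (le_max_left M 1) (not_le.2 (lt_of_lt_of_le ht h2))
  rw [contDiff_iff_contDiffAt]
  intro r₀
  have zero_case : (∀ᶠ r in 𝓝 r₀, kap β r = 0) → ContDiffAt ℝ ∞ (kap β) r₀ := by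
    intro h
    exact (contDiffAt_const (c := (0:ℝ))).congr_of_eventuallyEq h
  rcases le_or_gt r₀ 0 with hr | hr
  · -- near a nonpositive point
    apply zero_case
    have hcont : ContinuousAt (fun r : ℝ => Real.sqrt (r / (1 - r))) r₀ := by
      apply ContinuousAt.sqrt
      apply ContinuousAt.div continuousAt_id (by fun_prop)
      linarith
    have hv : Real.sqrt (r₀ / (1 - r₀)) = 0 := by
      apply Real.sqrt_eq_zero_of_nonpos
      exact div_nonpos_of_nonpos_of_nonneg hr (by linarith)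
    have h3 : ∀ᶠ r in 𝓝 r₀, |Real.sqrt (r / (1 - r))| < ε := by
      have := hcont.abs
      apply this.eventually_lt continuousAt_const
      rw [hv]; simpa using hε
    filter_upwards [h3] with r h
    rw [kap, hβ0 _ h, zero_div]
  · rcases lt_or_ge r₀ 1 with hr1 | hr1
    · -- inside
      have e1 : ContDiffAt ℝ ∞ (fun r : ℝ => r / (1 - r)) r₀ := by
        apply ContDiffAt.div contDiffAt_id (by fun_prop)
        linarith
      have e2 : ContDiffAt ℝ ∞ (fun r : ℝ => Real.sqrt (r / (1 - r))) r₀ := by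
        apply ContDiffAt.sqrt e1
        have : 0 < r₀ / (1 - r₀) := div_pos hr (by linarith)
        exact this.ne'
      have e3 : ContDiffAt ℝ ∞ (fun r : ℝ => β (Real.sqrt (r / (1 - r)))) r₀ :=
        hs.contDiffAt.comp r₀ e2
      exact e3.div (by fun_prop) (by positivity)
    · -- near a point at least one
      apply zero_case
      have hlim : ∀ᶠ r in 𝓝 r₀, 1 - 1 / (1 + M ^ 2) < r := by
        apply eventually_gt_nhds
        have : 0 < 1 / (1 + M ^ 2) := by positivity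
        linarith
      filter_upwards [hlim] with r h
      rcases lt_or_ge r 1 with h1 | h1
      · have h4 : M < |Real.sqrt (r / (1 - r))| := by
          rw [abs_of_nonneg (Real.sqrt_nonneg _)]
          apply Real.lt_sqrt_of_sq_lt
          rw [lt_div_iff₀ (by linarith)]
          have h5 : 1 - r < 1 / (1 + M ^ 2) := by linarith
          rw [lt_div_iff₀ (by positivity)] at h5
          nlinarith
        rw [kap, hβM _ h4, zero_div]
      · have h4 : Real.sqrt (r / (1 - r)) = 0 := by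
          apply Real.sqrt_eq_zero_of_nonpos
          exact div_nonpos_of_nonneg_of_nonpos (by linarith) (by linarith)
        rw [kap, h4, hβ0 0 (by simpa using hε), zero_div]

theorem fe_zero : fe 0 = 0 := by
  rw [fe, fr, conjQ, zero_mul, zero_mul, map_zero]

theorem inv_eq_star (x : ℍ) : x⁻¹ = (‖x‖ ^ 2)⁻¹ • star x := by
  rw [Quaternion.inv_def, Quaternion.normSq_eq_norm_mul_self, sq]

theorem contDiffOn_fe : ContDiffOn ℝ ∞ fe {0}ᶜ := by
  have h1 : ContDiff ℝ ∞ (fun x : ℍ => x * qK) := by fun_prop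
  have h2 : ContDiff ℝ ∞ (fun x : ℍ => star x) :=
    (LinearMap.toContinuousLinearMap
      { toFun := fun x : ℍ => star x
        map_add' := fun a b => star_add a b
        map_smul' := fun r a => Quaternion.star_smul r a } : ℍ →L[ℝ] ℍ).contDiff
  have h3 : ContDiffOn ℝ ∞ (fun x : ℍ => (‖x‖ ^ 2)⁻¹) {0}ᶜ := by
    apply ContDiffOn.inv (contDiff_norm_sq ℝ).contDiffOn
    intro x hx
    have : ‖x‖ ≠ 0 := norm_ne_zero_iff.2 hx
    positivity
  have h4 : ContDiffOn ℝ ∞ (fun x : ℍ => im3 (x * qK * ((‖x‖ ^ 2)⁻¹ • star x))) {0}ᶜ :=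
    im3.contDiff.comp_contDiffOn (h1.contDiffOn.mul (h3.smul h2.contDiffOn))
  refine h4.congr fun x _ => ?_
  rw [fe, fr, conjQ, inv_eq_star]

theorem fe_smul {r : ℝ} (hr : r ≠ 0) (x : ℍ) : fe (r • x) = fe x := by
  have h : conjQ (r • x) qK = conjQ x qK := by
    rw [conjQ, conjQ, inv_eq_star, inv_eq_star, norm_smul, Quaternion.star_smul, smul_mul_assoc,
      mul_smul_comm, mul_smul_comm, mul_smul_comm, smul_mul_assoc, smul_smul, smul_smul]
    congr 1
    rw [Real.norm_eq_abs, mul_pow, sq_abs, mul_inv]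
    field_simp
  rw [fe, fr, h]; rfl

theorem fe_rotK' (x : ℍ) (t : ℝ) : fe (x * rot qK t) = fe x := by
  rw [fe, fr_mul, conj_rot_self isImUnit_K]; rfl

theorem fe_I (x : ℍ) : fe (x * qI) = - fe x := by
  have := fe_rotI x π
  rw [rot_pi] at this
  simpa using this

theorem qI_c : qI.re = 0 ∧ qI.imI = 1 ∧ qI.imJ = 0 ∧ qI.imK = 0 := ⟨rfl, rfl, rfl, rfl⟩
theorem qJ_c : qJ.re = 0 ∧ qJ.imI = 0 ∧ qJ.imJ = 1 ∧ qJ.imK = 0 := ⟨rfl, rfl, rfl, rfl⟩
theorem qK_c : qK.re = 0 ∧ qK.imI = 0 ∧ qK.imJ = 0 ∧ qK.imK = 1 := ⟨rfl, rfl, rfl, rfl⟩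

/-- conjugation with a rotation about the third axis -/
theorem fe_rot_left (x : ℍ) (t : ℝ) :
    fe (rot qK t * x) 0 = Real.cos t * fe x 0 - Real.sin t * fe x 1 ∧
    fe (rot qK t * x) 1 = Real.sin t * fe x 0 + Real.cos t * fe x 1 := by
  have hq : conjQ x qK = (conjQ x qK).imI • qI + (conjQ x qK).imJ • qJ
      + (conjQ x qK).imK • qK := by
    by_cases hx : x = 0
    · subst hx
      simp [conjQ]
    · have hre : (conjQ x qK).re = 0 := re_conjQ hx qK
      apply Quaternion.ext <;> simp [qI_c, qJ_c, qK_c, hre]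
  have h1 : conjQ (rot qK t * x) qK = (conjQ x qK).imI • (Real.cos t • qI + Real.sin t • qJ)
      + (conjQ x qK).imJ • (Real.cos t • qJ - Real.sin t • qI) + (conjQ x qK).imK • qK := by
    rw [conjQ_mul, hq, conjQ_add, conjQ_add, conjQ_smul, conjQ_smul, conjQ_smul, conj_rotK_I,
      conj_rotK_J, conj_rot_self isImUnit_K, ← hq]
  have h2 : ∀ i, fe (rot qK t * x) i = im3 (conjQ (rot qK t * x) qK) i := fun i => rfl
  have h3 : ∀ i, fe x i = im3 (conjQ x qK) i := fun i => rfl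
  constructor
  · rw [h2, h3, h3, h1]
    simp [im3_apply, qI_c, qJ_c, qK_c]
    ring
  · rw [h2, h3, h3, h1]
    simp [im3_apply, qI_c, qJ_c, qK_c]
    ring

theorem fe_J_left (x : ℍ) : fe (qJ * x) 0 = - fe x 0 ∧ fe (qJ * x) 1 = fe x 1 := by
  have h1 : conjQ (qJ * x) qK = qJ * conjQ x qK * (-qJ) := by
    have hj : qJ⁻¹ = -qJ := by
      rw [inv_eq_star, isImUnit_J.norm_eq, isImUnit_J.star_eq]; simp
    rw [conjQ_mul, conjQ, hj]
  have h2 : ∀ i, fe (qJ * x) i = im3 (conjQ (qJ * x) qK) i := fun i => rfl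
  have h3 : ∀ i, fe x i = im3 (conjQ x qK) i := fun i => rfl
  constructor
  · rw [h2, h3, h1]
    simp [im3_apply, qJ_c, Quaternion.re_mul, Quaternion.imI_mul, Quaternion.imJ_mul,
      Quaternion.imK_mul]
  · rw [h2, h3, h1]
    simp [im3_apply, qJ_c, Quaternion.re_mul, Quaternion.imI_mul, Quaternion.imJ_mul,
      Quaternion.imK_mul]

theorem P4_rot (a b c s : ℝ) (h : c ^ 2 + s ^ 2 = 1) :
    P4 (c * a - s * b) (s * a + c * b) + P4 (c * a - (-s) * b) ((-s) * a + c * b)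
      = 2 * (8 * c ^ 4 - 8 * c ^ 2 + 1) * P4 a b := by
  have hs : s ^ 2 = 1 - c ^ 2 := by linarith
  have hs4 : s ^ 4 = (1 - c ^ 2) ^ 2 := by rw [← hs]; ring
  simp only [P4]
  ring_nf
  rw [hs4, hs]
  ring

/-- the function -/
noncomputable def bfun (β : ℝ → ℝ) (x : ℍ) : ℝ :=
  P4 (fe x 0) (fe x 1) * kap β (fe x 0 ^ 2 + fe x 1 ^ 2)

theorem befn_holds : BefnStatement := by
  intro β hs hc h0
  have hcoord : ∀ i : Fin 3, ContDiffOn ℝ ∞ (fun x : ℍ => fe x i) {0}ᶜ := fun i =>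
    (EuclideanSpace.proj (𝕜 := ℝ) (ι := Fin 3) i).contDiff.comp_contDiffOn contDiffOn_fe
  have hsm : ContDiffOn ℝ ∞ (bfun β) {0}ᶜ := by
    have h1 : ContDiffOn ℝ ∞ (fun x : ℍ => P4 (fe x 0) (fe x 1)) {0}ᶜ := by
      unfold P4
      exact (((hcoord 0).pow 4).sub ((contDiffOn_const.mul ((hcoord 0).pow 2)).mul
        ((hcoord 1).pow 2))).add ((hcoord 1).pow 4)
    exact h1.mul ((kap_smooth hs hc h0).comp_contDiffOn
      (((hcoord 0).pow 2).add ((hcoord 1).pow 2)))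
  have hhom : ∀ (r : ℝ) (x : ℍ), r ≠ 0 → x ≠ 0 → bfun β (r • x) = bfun β x := by
    intro r x hr _
    rw [bfun, fe_smul hr]; rfl
  have hb0 : bfun β 0 = 0 := by
    simp [bfun, fe_zero, P4]
  set b : SF := SF.of (bfun β) hsm hhom with hb
  have hval : ∀ x : ℍ, b x = bfun β x := by
    intro x
    by_cases hx : x = 0
    · subst hx; rw [SF.map_zero', hb0]
    · exact SF.of_apply hx
  refine ⟨b, ⟨fun x t => ?_, fun x => ?_⟩, ⟨fun α x => ?_, fun x => ?_⟩, fun a ha => ?_⟩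
  · rw [hval, hval, bfun, fe_rotK']; rfl
  · rw [hval, hval, bfun, bfun, fe_I]
    simp only [PiLp.neg_apply, P4]
    congr 1
    · ring
    · congr 1; ring
  · obtain ⟨e1, e2⟩ := fe_rot_left x α
    obtain ⟨e3, e4⟩ := fe_rot_left x (-α)
    rw [Real.cos_neg, Real.sin_neg] at e3 e4
    rw [hval, hval, hval, bfun, bfun, bfun, e1, e2, e3, e4]
    have hcs := Real.cos_sq_add_sin_sq α
    have r1 : (Real.cos α * fe x 0 - Real.sin α * fe x 1) ^ 2
        + (Real.sin α * fe x 0 + Real.cos α * fe x 1) ^ 2 = fe x 0 ^ 2 + fe x 1 ^ 2 := by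
      linear_combination (fe x 0 ^ 2 + fe x 1 ^ 2) * hcs
    have r2 : (Real.cos α * fe x 0 - -Real.sin α * fe x 1) ^ 2
        + (-Real.sin α * fe x 0 + Real.cos α * fe x 1) ^ 2 = fe x 0 ^ 2 + fe x 1 ^ 2 := by
      linear_combination (fe x 0 ^ 2 + fe x 1 ^ 2) * hcs
    rw [r1, r2, ← add_mul, P4_rot _ _ _ _ hcs]
    have h4 : Real.cos ((4:ℕ) * α) = 8 * Real.cos α ^ 4 - 8 * Real.cos α ^ 2 + 1 := by
      have : ((4:ℕ):ℝ) * α = 2 * (2 * α) := by push_cast; ring
      rw [this, Real.cos_two_mul, Real.cos_two_mul]; ring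
    rw [h4]; ring
  · obtain ⟨e1, e2⟩ := fe_J_left x
    rw [hval, hval, bfun, bfun, e1, e2]
    simp only [P4]
    congr 1
    · ring
    · congr 1; ring
  · rw [hval]
    have hfe : fe (xj a) = Real.cos (-Real.arctan a) • im3 qK
        + Real.sin (-Real.arctan a) • im3 qI := by
      rw [fe, fr, xj, conj_rot_gen isImUnit_J qJ_mul_qK qK_mul_qJ qI_mul_qJ, map_add, map_smul,
        map_smul]
    have hp : 0 < 1 + a ^ 2 := by positivity
    have hs1 : Real.sqrt (1 + a ^ 2) ^ 2 = 1 + a ^ 2 := Real.sq_sqrt hp.le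
    have hsp : 0 < Real.sqrt (1 + a ^ 2) := Real.sqrt_pos.2 hp
    have f0 : fe (xj a) 0 = -(a / Real.sqrt (1 + a ^ 2)) := by
      rw [hfe, Real.sin_neg, Real.sin_arctan]
      simp [im3_apply, qI_c, qK_c]
    have f1 : fe (xj a) 1 = 0 := by
      rw [hfe]
      simp [im3_apply, qI_c, qK_c]
    have hr : (-(a / Real.sqrt (1 + a ^ 2))) ^ 2 + (0:ℝ) ^ 2 = a ^ 2 / (1 + a ^ 2) := by
      rw [neg_sq, div_pow, hs1]; ring
    rw [bfun, f0, f1, hr, kap]
    have h5 : a ^ 2 / (1 + a ^ 2) / (1 - a ^ 2 / (1 + a ^ 2)) = a ^ 2 := by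
      have : 1 - a ^ 2 / (1 + a ^ 2) = 1 / (1 + a ^ 2) := by field_simp; ring
      rw [this]; field_simp
    rw [h5, Real.sqrt_sq ha.le]
    have h6 : P4 (-(a / Real.sqrt (1 + a ^ 2))) 0 = (a ^ 2 / (1 + a ^ 2)) ^ 2 := by
      rw [← hr]; simp only [P4]; ring
    rw [h6]
    have h7 : (a ^ 2 / (1 + a ^ 2)) ^ 2 ≠ 0 := by positivity
    field_simp

end Pool.Agent.MP85963d.H45
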